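import Pool.Agent.H63.MG.Bridge
import Pool.Graph.R_seed8.Results.MP_f1799f_co.FonDerFlaass

/-! The lower bound for relations without unrelated pairs and induced four-cycles. -/

set_option autoImplicit false

namespace Pool.Agent.H63.MK

open Finset
open Pool.Agent.H63.MG (Pr cd c3 tc tc_iff Pr_lt)
open Pool.Agent.Results.MP_f1799f_co.FonDerFlaass (IsOriented NoInducedC4 fdf fdf_lower)

theorem six {n : ℕ} (F : Finset (Finset (Fin n))) (hF : ∀ e ∈ F, e.card = 3) :
    6 * F.card ≤ (univ.filter fun t : Fin n × Fin n × Fin n =>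
      ({t.1, t.2.1, t.2.2} : Finset (Fin n)) ∈ F).card := by
  classical
  set T' : Finset (Fin n × Fin n × Fin n) := univ.filter fun t =>
      ({t.1, t.2.1, t.2.2} : Finset (Fin n)) ∈ F with hT'
  rw [Finset.card_eq_sum_card_fiberwise (f := fun t => ({t.1, t.2.1, t.2.2} : Finset (Fin n)))
      (s := T') (t := F) (fun t ht => (Finset.mem_filter.1 ht).2), mul_comm,
      ← smul_eq_mul, ← Finset.sum_const]
  refine Finset.sum_le_sum fun e he => ?_
  have h5 := hF e he
  rw [Finset.card_eq_three] at h5
  obtain ⟨x, y, z, hxy, hxz, hyz, rfl⟩ := h5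
  have h6 : (univ : Finset (Equiv.Perm (Fin 3))).card = 6 := by
    rw [Finset.card_univ, Fintype.card_perm, Fintype.card_fin]
    rfl
  rw [← h6]
  have hv : Function.Injective (![x, y, z] : Fin 3 → Fin n) := by
    intro i j hij
    fin_cases i <;> fin_cases j <;> simp_all
  refine Finset.card_le_card_of_injOn
    (fun σ : Equiv.Perm (Fin 3) => ((![x, y, z] : Fin 3 → Fin n) (σ 0),
      (![x, y, z] : Fin 3 → Fin n) (σ 1), (![x, y, z] : Fin 3 → Fin n) (σ 2))) ?_ ?_
  · intro σ _
    have hS : ({(![x, y, z] : Fin 3 → Fin n) (σ 0), (![x, y, z] : Fin 3 → Fin n) (σ 1),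
        (![x, y, z] : Fin 3 → Fin n) (σ 2)} : Finset (Fin n)) = {x, y, z} := by
      have e1 : ({(![x, y, z] : Fin 3 → Fin n) (σ 0), (![x, y, z] : Fin 3 → Fin n) (σ 1),
        (![x, y, z] : Fin 3 → Fin n) (σ 2)} : Finset (Fin n)) =
          (univ : Finset (Fin 3)).image (fun i => (![x, y, z] : Fin 3 → Fin n) (σ i)) := by
        ext a
        simp only [Finset.mem_insert, Finset.mem_singleton, Finset.mem_image, Finset.mem_univ,
          true_and]
        constructor
        · rintro (h | h | h)
          · exact ⟨0, h.symm⟩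
          · exact ⟨1, h.symm⟩
          · exact ⟨2, h.symm⟩
        · rintro ⟨i, hi⟩
          fin_cases i
          · exact Or.inl hi.symm
          · exact Or.inr (Or.inl hi.symm)
          · exact Or.inr (Or.inr hi.symm)
      have e2 : ({x, y, z} : Finset (Fin n)) =
          (univ : Finset (Fin 3)).image (![x, y, z] : Fin 3 → Fin n) := by
        ext a
        simp only [Finset.mem_insert, Finset.mem_singleton, Finset.mem_image, Finset.mem_univ,
          true_and]
        constructor
        · rintro (h | h | h)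
          · exact ⟨0, h.symm⟩
          · exact ⟨1, h.symm⟩
          · exact ⟨2, h.symm⟩
        · rintro ⟨i, hi⟩
          fin_cases i
          · exact Or.inl hi.symm
          · exact Or.inr (Or.inl hi.symm)
          · exact Or.inr (Or.inr hi.symm)
      rw [e1, e2]
      ext a
      simp only [Finset.mem_image, Finset.mem_univ, true_and]
      constructor
      · rintro ⟨i, hi⟩
        exact ⟨σ i, hi⟩
      · rintro ⟨i, hi⟩
        exact ⟨σ.symm i, by rw [Equiv.apply_symm_apply]; exact hi⟩
    simp only [Finset.coe_filter, Set.mem_ofPred_eq]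
    refine ⟨?_, hS⟩
    rw [hT', Finset.mem_filter]
    refine ⟨Finset.mem_univ _, ?_⟩
    simp only
    rw [hS]
    exact he
  · intro σ _ τ _ hst
    simp only [Prod.mk.injEq] at hst
    obtain ⟨a1, a2, a3⟩ := hst
    refine Equiv.ext fun i => ?_
    fin_cases i
    · exact hv a1
    · exact hv a2
    · exact hv a3

open Classical in
theorem mem_fdf {n : ℕ} (R : Fin n → Fin n → Prop) (e : Finset (Fin n)) (h : e ∈ fdf R) :
    e.card = 3 ∧ ∃ x ∈ e, (∀ y ∈ e, y ≠ x → (¬ R x y ∧ ¬ R y x)) ∨ (∀ y ∈ e, y ≠ x → R x y) := by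
  unfold fdf at h
  exact ⟨(mem_powersetCard.1 (mem_filter.1 h).1).2, (mem_filter.1 h).2⟩

theorem low4 (k : ℕ) (rel : Fin k → Fin k → ℕ) (hrel : ∀ x y, Pr (rel x y) (rel y x))
    (hne : ∀ x y, x ≠ y → rel x y ≠ 3)
    (hC : ¬ ∃ a b c d : Fin k, rel a b = 1 ∧ rel b c = 1 ∧ rel c d = 1 ∧ rel d a = 1 ∧
      rel a c = 0 ∧ rel b d = 0) :
    (4 / 9 : ℝ) * (k : ℝ) ^ 3 - 3 * (k : ℝ) ^ 2 ≤ ∑ i, ∑ j, ∑ l, (tc (c3 rel i j l) : ℝ) := by
  classical
  have hO : IsOriented fun x y => rel x y = 1 := by
    intro x y h1 h2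
    have h1' : rel x y = 1 := h1
    have h2' : rel y x = 1 := h2
    rcases hrel x y with h' | h' | h' | h' <;> omega
  have hneu : ∀ x y, x ≠ y → ¬ rel x y = 1 → ¬ rel y x = 1 → rel x y = 0 := by
    intro x y hxy h1 h2
    have h3 := hne x y hxy
    rcases hrel x y with h' | h' | h' | h' <;> omega
  have hN : NoInducedC4 fun x y => rel x y = 1 := by
    rintro ⟨a, b, c, d, h1, h2, h3, h4, h5, h6, h7, h8⟩
    have hac : a ≠ c := by
      rintro rfl
      exact hO _ _ h1 h2
    have hbd : b ≠ d := by
      rintro rfl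
      exact hO _ _ h2 h3
    exact hC ⟨a, b, c, d, h1, h2, h3, h4, hneu a c hac h5 h6, hneu b d hbd h7 h8⟩
  have hL := fdf_lower (fun x y => rel x y = 1) hO hN
  set F := fdf (fun x y : Fin k => rel x y = 1) with hF
  have h3 : ∀ e ∈ F, e.card = 3 := by
    intro e he
    rw [hF] at he
    exact (mem_fdf _ e he).1
  have h6 := six F h3
  have hT : ((univ.filter fun t : Fin k × Fin k × Fin k =>
      ({t.1, t.2.1, t.2.2} : Finset (Fin k)) ∈ F).card : ℕ) ≤
      ∑ i, ∑ j, ∑ l, tc (c3 rel i j l) := by
    have e1 : ∑ a, ∑ b, ∑ d, tc (c3 rel a b d) =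
        ∑ t : Fin k × Fin k × Fin k, tc (c3 rel t.1 t.2.1 t.2.2) := by
      rw [Fintype.sum_prod_type]
      refine Finset.sum_congr rfl fun a _ => ?_
      rw [Fintype.sum_prod_type]
    rw [e1, Finset.card_filter]
    refine Finset.sum_le_sum fun t _ => ?_
    split_ifs with h
    · obtain ⟨a, b, c⟩ := t
      have hm : ({a, b, c} : Finset (Fin k)) ∈ F := h
      have hcard := h3 _ hm
      have hab : a ≠ b := by
        rintro rfl
        rw [insert_eq_of_mem (mem_insert_self _ _)] at hcard
        have := card_le_two (a := a) (b := c)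
        omega
      have hac : a ≠ c := by
        rintro rfl
        rw [insert_eq_of_mem (mem_insert_of_mem (mem_singleton_self _))] at hcard
        have := card_le_two (a := b) (b := a)
        omega
      have hbc : b ≠ c := by
        rintro rfl
        rw [insert_eq_of_mem (mem_singleton_self _)] at hcard
        have := card_le_two (a := a) (b := b)
        omega
      rw [hF] at hm
      obtain ⟨x, hx, hd⟩ := (mem_fdf _ _ hm).2
      show 1 ≤ tc (c3 rel a b c)
      by_contra hlt
      have h0 : tc (cd (rel a b) (rel a c) (rel b c)) = 0 := by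
        have : tc (c3 rel a b c) = 0 := by omega
        exact this
      rw [tc_iff _ (Pr_lt (hrel a b)) _ (Pr_lt (hrel a c)) _ (Pr_lt (hrel b c))] at h0
      refine h0 ?_
      have sa : a ∈ ({a, b, c} : Finset (Fin k)) := mem_insert_self _ _
      have sb : b ∈ ({a, b, c} : Finset (Fin k)) := mem_insert_of_mem (mem_insert_self _ _)
      have sc : c ∈ ({a, b, c} : Finset (Fin k)) :=
        mem_insert_of_mem (mem_insert_of_mem (mem_singleton_self _))
      have key : ∀ u v : Fin k, rel u v = 1 → rel v u = 2 := by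
        intro u v huv
        rcases hrel u v with h' | h' | h' | h' <;> omega
      have key0 : ∀ u v : Fin k, rel u v = 0 → rel v u = 0 := by
        intro u v huv
        rcases hrel u v with h' | h' | h' | h' <;> omega
      rcases mem_insert.1 hx with rfl | hx
      · rcases hd with hd | hd
        · have h1 := hd b sb hab.symm
          have h2 := hd c sc hac.symm
          exact Or.inl ⟨hneu _ _ hab h1.1 h1.2, hneu _ _ hac h2.1 h2.2⟩
        · exact Or.inr (Or.inl ⟨hd b sb hab.symm, hd c sc hac.symm⟩)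
      · rcases mem_insert.1 hx with rfl | hx
        · rcases hd with hd | hd
          · have h1 := hd a sa hab
            have h2 := hd c sc hbc.symm
            exact Or.inr (Or.inr (Or.inl ⟨hneu _ _ hab h1.2 h1.1, hneu _ _ hbc h2.1 h2.2⟩))
          · exact Or.inr (Or.inr (Or.inr (Or.inl ⟨key _ _ (hd a sa hab), hd c sc hbc.symm⟩)))
        · rw [mem_singleton] at hx
          subst hx
          rcases hd with hd | hd
          · have h1 := hd a sa hac
            have h2 := hd b sb hbc
            exact Or.inr (Or.inr (Or.inr (Or.inr (Or.inl ⟨hneu _ _ hac h1.2 h1.1,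
              hneu _ _ hbc h2.2 h2.1⟩))))
          · exact Or.inr (Or.inr (Or.inr (Or.inr (Or.inr ⟨key _ _ (hd a sa hac),
              key _ _ (hd b sb hbc)⟩))))
    · exact Nat.zero_le _
  have h7 : (6 : ℝ) * (F.card : ℝ) ≤ ∑ i, ∑ j, ∑ l, (tc (c3 rel i j l) : ℝ) := by
    exact_mod_cast h6.trans hT
  have hk : (0 : ℝ) ≤ k := Nat.cast_nonneg _
  nlinarith

end Pool.Agent.H63.MK
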