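import Pool.Agent.H63.MK.Free
import Pool.Agent.H63.MG.Main
import Pool.Agent.H63.MK.Low

/-! The density five ninths for all mixed graphs without four vertices spanning a complete
3-graph. -/

set_option autoImplicit false

namespace Pool.Agent.H63.MK

open Finset
open Pool.Agent.H63.MGS
open Pool.Agent.H63.MG (Pr c3 tc not_inj_card card_exists avg tc_le_one ch3 code
  code_pr code_self tri_count)
open Pool.Agent.H63.MT (rT)

open Classical in
theorem asym4 (ε : ℝ) (hε : 0 < ε) : ∃ m0 : ℕ, ∀ (V : Type) [Fintype V],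
    m0 ≤ Fintype.card V → ∀ rel : V → V → ℕ, Good4 rel →
    (4 / 9 - ε) * (Fintype.card V : ℝ) ^ 3
      ≤ ∑ a, ∑ b, ∑ d, (tc (c3 rel a b d) : ℝ) := by
  obtain ⟨k, hk⟩ : ∃ k : ℕ, max 100 (12 / ε) ≤ (k : ℝ) := exists_nat_ge _
  have hkr : (100 : ℝ) ≤ k := (le_max_left _ _).trans hk
  have hk4 : 100 ≤ k := by exact_mod_cast hkr
  have hkε : 12 / ε ≤ k := (le_max_right _ _).trans hk
  have hk0 : (0 : ℝ) < k := by linarith
  obtain ⟨m0, hm0⟩ := few_bad3 (ε / (4 * (k : ℝ) ^ 3)) (by positivity)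
  obtain ⟨n0, hn0⟩ : ∃ n0 : ℕ, max 1 (4 * (k : ℝ) ^ 2 / ε) ≤ (n0 : ℝ) := exists_nat_ge _
  refine ⟨max m0 n0, fun V _ hV rel hG => ?_⟩
  have hVn : (n0 : ℝ) ≤ Fintype.card V := by exact_mod_cast (le_max_right _ _).trans hV
  have hV1 : (1 : ℝ) ≤ Fintype.card V := (le_max_left _ _).trans (hn0.trans hVn)
  have hV2 : 4 * (k : ℝ) ^ 2 / ε ≤ Fintype.card V := (le_max_right _ _).trans (hn0.trans hVn)
  have hV0 : 0 < Fintype.card V := by exact_mod_cast hV1
  have hVr : (0 : ℝ) < Fintype.card V := by linarith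
  have hne : Nonempty V := Fintype.card_pos_iff.1 hV0
  have hB := hm0 V ((le_max_left _ _).trans hV) rel hG
  set n : ℝ := (Fintype.card V : ℝ) with hn
  have hF1 := card_exists (k := k)
    (univ.filter fun x : Fin 3 → V => Function.Injective x ∧ Bad3 rel x) _ hB hV0
    (univ.filter fun f : Fin k → V => Function.Injective f ∧
      ∃ y : Fin 4 → Fin k, TF4 (rT fun i j => rel (f i) (f j)) y)
    (fun f hf => by
      obtain ⟨h, hi, hb⟩ := exists_bad3 rel hG k (by omega) f (mem_filter.1 hf).2.1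
        (mem_filter.1 hf).2.2
      exact ⟨h, hi, mem_filter.2 ⟨mem_univ _, hb⟩⟩)
  have hF2 := not_inj_card k hV0 (univ.filter fun f : Fin k → V => ¬ Function.Injective f)
    (fun f hf => (mem_filter.1 hf).2)
  have e1 : (k : ℝ) ^ 3 * (ε / (4 * (k : ℝ) ^ 3)) = ε / 4 := by field_simp
  rw [e1] at hF1
  have e2 : (k : ℝ) ^ 2 * (1 / n) ≤ ε / 4 := by
    rw [mul_one_div, div_le_iff₀ hVr]
    rw [div_le_iff₀ hε] at hV2
    linarith
  have hF3 : (((univ.filter fun f : Fin k → V => Function.Injective f ∧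
      ∃ y : Fin 4 → Fin k, TF4 (rT fun i j => rel (f i) (f j)) y) ∪
      (univ.filter fun f : Fin k → V => ¬ Function.Injective f)).card : ℝ)
      ≤ (ε / 2) * n ^ k := by
    have h1 : (((univ.filter fun f : Fin k → V => Function.Injective f ∧
      ∃ y : Fin 4 → Fin k, TF4 (rT fun i j => rel (f i) (f j)) y) ∪
      (univ.filter fun f : Fin k → V => ¬ Function.Injective f)).card : ℝ)
      ≤ ((univ.filter fun f : Fin k → V => Function.Injective f ∧
      ∃ y : Fin 4 → Fin k, TF4 (rT fun i j => rel (f i) (f j)) y).card : ℝ)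
        + ((univ.filter fun f : Fin k → V => ¬ Function.Injective f).card : ℝ) := by
      exact_mod_cast card_union_le _ _
    have h2 : (k : ℝ) ^ 2 * (1 / n) * n ^ k ≤ ε / 4 * n ^ k :=
      mul_le_mul_of_nonneg_right e2 (by positivity)
    calc _ ≤ _ := h1
      _ ≤ ε / 4 * n ^ k + ε / 4 * n ^ k := add_le_add hF1 (hF2.trans h2)
      _ = _ := by ring
  have h3k : 3 / (k : ℝ) ≤ ε / 4 := by
    rw [div_le_iff₀ hk0]
    rw [div_le_iff₀ hε] at hkε
    linarith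
  have h3k' : 3 / (k : ℝ) ≤ 1 / 33 := by
    rw [div_le_iff₀ hk0]
    linarith
  have h0k : 0 ≤ 3 / (k : ℝ) := by positivity
  have hA := avg (fun a b d => (tc (c3 rel a b d) : ℝ)) (fun _ _ _ => Nat.cast_nonneg _)
    (fun _ _ _ => by exact_mod_cast tc_le_one _) k (by omega)
    (4 / 9 - 3 / (k : ℝ)) (ε / 2)
    (by norm_num at h3k' ⊢; linarith) _ hF3
    (fun f hf => by
      rw [mem_union, not_or] at hf
      obtain ⟨hf1, hf2⟩ := hf
      have hinj : Function.Injective f := by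
        by_contra hno
        exact hf2 (mem_filter.2 ⟨mem_univ _, hno⟩)
      have hcl : ∀ y : Fin 4 → Fin k, ¬ TF4 (rT fun i j => rel (f i) (f j)) y := by
        intro y hy
        exact hf1 (mem_filter.2 ⟨mem_univ _, hinj, y, hy⟩)
      have h1 := low4 k (fun i j => rel (f i) (f j)) (fun _ _ => hG.hrel _ _)
        (fun x y hxy => no_three _ (fun _ _ => hG.hrel _ _) hcl x y hxy)
        (no_cycle _ (fun _ _ => hG.hrel _ _) (fun _ => hG.hz _) hcl)
      refine le_trans (le_of_eq ?_) h1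
      field_simp)
  refine le_trans (mul_le_mul_of_nonneg_right ?_ (by positivity)) hA
  have h5 : 0 ≤ (3 / (k : ℝ)) * (ε / 2) := by positivity
  have h6 : (4 / 9 - 3 / (k : ℝ)) * (1 - ε / 2) - 3 / (k : ℝ)
      = 4 / 9 - 3 / (k : ℝ) - 4 / 9 * (ε / 2)
        + (3 / (k : ℝ)) * (ε / 2) - 3 / (k : ℝ) := by ring
  rw [h6]
  nlinarith

theorem to_choose4 (n : ℕ) (ε : ℝ) (hε : 0 < ε) (hn : 6 * (5 / 9 + ε) / ε ≤ n) :
    (5 / 9 + ε / 2) * (n : ℝ) ^ 3 ≤ 6 * ((5 / 9 + ε) * (n.choose 3 : ℝ)) := by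
  have h := ch3 n
  rw [div_le_iff₀ hε] at hn
  have h0 : (0 : ℝ) ≤ n := Nat.cast_nonneg _
  have e : 6 * ((5 / 9 + ε) * (n.choose 3 : ℝ)) = (5 / 9 + ε) * (n * (n - 1) * (n - 2)) := by
    rw [← h]; ring
  rw [e]
  have h1 : 0 ≤ (n : ℝ) ^ 2 * (n * ε - 6 * (5 / 9 + ε)) := mul_nonneg (by positivity) (by linarith)
  have h2 : 0 ≤ (5 / 9 + ε) * (2 * (n : ℝ)) := by positivity
  nlinarith

/-- the upper bound -/
theorem upper4 (ε : ℝ) (hε : 0 < ε) : ∃ n₀ : ℕ, ∀ n : ℕ, n₀ ≤ n → ∀ G : MixedGraph (Fin n),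
    K43Free G.threeGraph → (G.threeGraph.card : ℝ) ≤ (5 / 9 + ε) * (n.choose 3 : ℝ) := by
  classical
  obtain ⟨n1, h1⟩ := asym4 (ε / 2) (by positivity)
  obtain ⟨n2, hn2⟩ : ∃ n2 : ℕ, 6 * (5 / 9 + ε) / ε ≤ (n2 : ℝ) := exists_nat_ge _
  refine ⟨max n1 n2, fun n hn G hG => ?_⟩
  have hgood : Good4 (code G) := ⟨code_pr G, code_self G, free4 G hG⟩
  have h2 := h1 (Fin n) (by rw [Fintype.card_fin]; exact (le_max_left _ _).trans hn) (code G)
    hgood
  rw [Fintype.card_fin] at h2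
  have h3 : (6 : ℝ) * (G.threeGraph.card : ℝ)
      + ∑ a, ∑ b, ∑ d, (tc (c3 (code G) a b d) : ℝ) ≤ (n : ℝ) ^ 3 := by
    exact_mod_cast tri_count G
  have h4 := to_choose4 n ε hε (hn2.trans (by exact_mod_cast (le_max_right _ _).trans hn))
  nlinarith

end Pool.Agent.H63.MK
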