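import Pool.Agent.H63.MT.Core

/-! Four vertices without a dominated triple: few triples have a bad transitive blow-up. -/

set_option autoImplicit false
open Finset

namespace Pool.Agent.H63.MK

open Pool.Agent.H63.MG (Pr cd c3 tc Pr_lt pigeon)
open Pool.Agent.H63.MT (rT rT_self rT_ne k1 k2 k3)

/-- four vertices (possibly repeated) without a dominated triple -/
def TF4 {V : Type} (rel : V → V → ℕ) (y : Fin 4 → V) : Prop :=
  ∀ a b c : Fin 4, a < b → b < c → tc (c3 rel (y a) (y b) (y c)) = 0

structure Good4 {V : Type} (rel : V → V → ℕ) : Prop where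
  hrel : ∀ x y, Pr (rel x y) (rel y x)
  hz : ∀ x, rel x x = 0
  h4 : ∀ y : Fin 4 → V, Function.Injective y → ¬ TF4 rel y

/-- in such a family every vertex occurs at most twice -/
theorem bits4 {V : Type} (rel : V → V → ℕ) (y : Fin 4 → V)
    (h : TF4 (rT rel) y) : ∃ e : Fin 4 → Fin 2, (∀ a b, a < b → y a = y b → e a = 0 ∧ e b = 1) ∧
      (∀ a b c, a < b → b < c → y a = y b → y b = y c → False) := by
  classical
  have h3 : ∀ a b c : Fin 4, a < b → b < c → y a = y b → y b = y c → False := by
    intro a b c hab hbc h1 h2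
    have := h a b c hab hbc
    rw [h1, h2] at this
    unfold c3 at this
    rw [rT_self] at this
    exact absurd this (by decide)
  let e : Fin 4 → Fin 2 := fun a => if ∃ b, b < a ∧ y b = y a then 1 else 0
  have key0 : ∀ a b, a < b → y a = y b → e a = 0 ∧ e b = 1 := by
    intro a b hab h1
    refine ⟨?_, if_pos ⟨a, hab, h1⟩⟩
    refine if_neg ?_
    rintro ⟨c, hca, hcy⟩
    exact h3 c a b hca hab hcy h1
  exact ⟨e, key0, h3⟩

/-- some four vertices, chosen with repetition among the three, have no dominated triple -/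
def Bad3 {V : Type} (rel : V → V → ℕ) (x : Fin 3 → V) : Prop :=
  ∃ s : Fin 4 → Fin 3, TF4 (rT fun i j => rel (x i) (x j)) s

/-- a complete box of bad triples of one code is impossible -/
theorem no_box4 {V : Type} (rel : V → V → ℕ) (hG : Good4 rel)
    (γ : Fin 3 → Fin 3 → ℕ) (τ : Fin 3 → Fin 4 → V) (hτ : ∀ i, Function.Injective (τ i))
    (hb : ∀ j : Fin 3 → Fin 4, Function.Injective (fun i => τ i (j i)) ∧
      Bad3 rel (fun i => τ i (j i)) ∧ ∀ a b, rel (τ a (j a)) (τ b (j b)) = γ a b) : False := by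
  classical
  have h4 : ∀ x y, rel x y < 4 := fun x y => Pr_lt (hG.hrel x y)
  have hp : ∀ i : Fin 3, ∃ P : Fin 2 → Fin 4, τ i (P 0) ≠ τ i (P 1) ∧
      rel (τ i (P 0)) (τ i (P 1)) < 2 := by
    intro i
    by_contra hno
    push Not at hno
    have h3 : ∀ a b : Fin 4, a ≠ b → rel (τ i a) (τ i b) = 3 := by
      intro a b hab
      have h1 := hno ![a, b] (fun h => hab (hτ i h))
      have h2 := hno ![b, a] (fun h => hab (hτ i h.symm))
      have h1' : 2 ≤ rel (τ i a) (τ i b) := h1
      have h2' : 2 ≤ rel (τ i b) (τ i a) := h2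
      rcases hG.hrel (τ i a) (τ i b) with h' | h' | h' | h' <;> omega
    refine hG.h4 (τ i) (hτ i) ?_
    intro a b c hab hbc
    unfold c3
    rw [h3 a b hab.ne, h3 a c (hab.trans hbc).ne, h3 b c hbc.ne]
    decide
  choose P hP1 hP2 using hp
  obtain ⟨hinj0, ⟨s, hs⟩, hc0⟩ := hb (fun i => P i 0)
  obtain ⟨e, he01, h3⟩ := bits4 (fun i j : Fin 3 => rel (τ i (P i 0)) (τ j (P j 0))) s hs
  have hne : ∀ a b, s a ≠ s b → rel (τ (s a) (P (s a) (e a))) (τ (s b) (P (s b) (e b)))
      = rel (τ (s a) (P (s a) 0)) (τ (s b) (P (s b) 0)) := by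
    intro a b hsab
    have h1 : rel (τ (s a) (if s a = s a then P (s a) (e a) else P (s a) (e b)))
        (τ (s b) (if s b = s a then P (s b) (e a) else P (s b) (e b))) = γ (s a) (s b) :=
      (hb (fun i => if i = s a then P i (e a) else P i (e b))).2.2 (s a) (s b)
    rw [if_pos rfl, if_neg (fun h => hsab h.symm)] at h1
    rw [h1, hc0]
  have heq : ∀ a b, a < b → s a = s b →
      rel (τ (s a) (P (s a) (e a))) (τ (s b) (P (s b) (e b))) < 2 := by
    intro a b hab hsab
    obtain ⟨h0, h1⟩ := he01 a b hab hsab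
    rw [h0, h1, ← hsab]
    exact hP2 (s a)
  refine hG.h4 (fun a => τ (s a) (P (s a) (e a))) ?_ ?_
  · intro a b hab
    by_contra hneab
    by_cases hsab : s a = s b
    · have hab' : τ (s a) (P (s a) (e a)) = τ (s b) (P (s b) (e b)) := hab
      rcases lt_or_gt_of_ne hneab with hlt | hlt
      · obtain ⟨h0, h1⟩ := he01 a b hlt hsab
        rw [h0, h1, ← hsab] at hab'
        exact hP1 (s a) hab'
      · obtain ⟨h0, h1⟩ := he01 b a hlt hsab.symm
        rw [h0, h1, ← hsab] at hab'
        exact hP1 (s a) hab'.symm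
    · have h1 := (hb (fun i => if i = s a then P i (e a) else P i (e b))).1
      have h2 : (fun i => τ i ((fun i => if i = s a then P i (e a) else P i (e b)) i)) (s a)
        = (fun i => τ i ((fun i => if i = s a then P i (e a) else P i (e b)) i)) (s b) := by
        show τ (s a) (if s a = s a then P (s a) (e a) else P (s a) (e b))
          = τ (s b) (if s b = s a then P (s b) (e a) else P (s b) (e b))
        rw [if_pos rfl, if_neg (fun h => hsab h.symm)]
        exact hab
      exact hsab (h1 h2)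
  · intro a b c hab hbc
    have ht := hs a b c hab hbc
    unfold c3 at ht ⊢
    show tc (cd (rel (τ (s a) (P (s a) (e a))) (τ (s b) (P (s b) (e b))))
      (rel (τ (s a) (P (s a) (e a))) (τ (s c) (P (s c) (e c))))
      (rel (τ (s b) (P (s b) (e b))) (τ (s c) (P (s c) (e c))))) = 0
    by_cases h1 : s a = s b
    · by_cases h2 : s b = s c
      · exact (h3 a b c hab hbc h1 h2).elim
      · have h2' : s a ≠ s c := fun h => h2 (h1.symm.trans h)
        rw [hne a c h2', hne b c h2]
        rw [h1, rT_self, rT_ne _ h2] at ht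
        rw [h1]
        exact k1 _ (h4 _ _) _ (by have := heq a b hab h1; rwa [h1] at this) ht
    · by_cases h2 : s a = s c
      · have h2' : s b ≠ s c := fun h => h1 (h2.trans h.symm)
        rw [hne a b h1, hne b c h2']
        rw [h2, rT_self, rT_ne _ (fun h => h2' h.symm), rT_ne _ h2'] at ht
        rw [h2]
        exact k2 (hG.hrel _ _) (by
          have := heq a c (hab.trans hbc) h2
          rwa [h2] at this) ht
      · by_cases h3' : s b = s c
        · rw [hne a b h1, hne a c h2]
          rw [h3', rT_self, rT_ne _ h2] at ht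
          rw [h3']
          exact k3 _ (h4 _ _) _ (by have := heq b c hbc h3'; rwa [h3'] at this) ht
        · rw [hne a b h1, hne a c h2, hne b c h3']
          rw [rT_ne _ h1, rT_ne _ h2, rT_ne _ h3'] at ht
          exact ht

open Classical in
theorem few_bad3 (δ : ℝ) (hδ : 0 < δ) : ∃ m0 : ℕ, ∀ (V : Type) [Fintype V],
    m0 ≤ Fintype.card V → ∀ rel : V → V → ℕ, Good4 rel →
    ((univ.filter fun x : Fin 3 → V => Function.Injective x ∧ Bad3 rel x).card : ℝ)
      ≤ δ * (Fintype.card V : ℝ) ^ 3 := by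
  obtain ⟨K, hK⟩ : ∃ K : ℝ, K = (Fintype.card (Fin 3 → Fin 3 → Fin 4) : ℝ) := ⟨_, rfl⟩
  have hKpos : 0 < K := by
    rw [hK]
    exact Nat.cast_pos.2 Fintype.card_pos
  set δ₀ : ℝ := min 1 (δ / (2 * K)) with hδ₀
  have hδ₀pos : 0 < δ₀ := lt_min one_pos (by positivity)
  obtain ⟨n0, hbox⟩ := Pool.Agent.TH484.CL.box 4 (by omega) 3 δ₀ hδ₀pos (min_le_left _ _)
  refine ⟨max n0 1, fun V _ hV rel hG => ?_⟩
  have hV0 : n0 ≤ Fintype.card V := (le_max_left _ _).trans hV
  have hV1 : 0 < Fintype.card V := (le_max_right _ _).trans hV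
  have hVr : (0 : ℝ) < Fintype.card V := by exact_mod_cast hV1
  set n : ℝ := (Fintype.card V : ℝ) with hn
  set B := univ.filter fun x : Fin 3 → V => Function.Injective x ∧ Bad3 rel x with hB
  have h4 : ∀ x y, rel x y < 4 := fun x y => Pr_lt (hG.hrel x y)
  let γ : (Fin 3 → V) → (Fin 3 → Fin 3 → Fin 4) := fun x i j => ⟨rel (x i) (x j), h4 _ _⟩
  by_contra hcon
  push Not at hcon
  have hex : ∃ g : Fin 3 → Fin 3 → Fin 4, δ₀ * n ^ 3 ≤
      ((B.filter fun x => γ x = g).card : ℝ) := by
    by_contra hno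
    push Not at hno
    have h1 : (B.card : ℝ) ≤ K * (δ₀ * n ^ 3) := by
      rw [hK]
      refine pigeon _ γ _ fun g => lt_of_eq_of_lt ?_ (hno g)
      congr
    have h2 : K * (δ₀ * n ^ 3) ≤ δ / 2 * n ^ 3 := by
      rw [← mul_assoc]
      refine mul_le_mul_of_nonneg_right ?_ (by positivity)
      have : δ₀ ≤ δ / (2 * K) := min_le_right _ _
      rw [le_div_iff₀ (by positivity)] at this
      nlinarith
    have h3 : 0 < δ / 2 * n ^ 3 := by positivity
    linarith
  obtain ⟨g, hg⟩ := hex
  set D := B.filter fun x => γ x = g with hD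
  obtain ⟨τ, hτ, hj⟩ := hbox V hV0 (fun x => if x ∈ D then 1 else 0)
    (fun x => by split_ifs <;> norm_num) (fun x => by split_ifs <;> norm_num)
    (by rw [sum_boole, filter_mem_eq_inter, univ_inter]; exact hg)
  refine no_box4 rel hG (fun a b => (g a b : ℕ)) τ hτ fun j => ?_
  have hm : (fun i => τ i (j i)) ∈ D := by
    by_contra hnot
    have := hj j
    rw [if_neg hnot] at this
    exact lt_irrefl _ this
  rw [hD, mem_filter, hB, mem_filter] at hm
  refine ⟨hm.1.2.1, hm.1.2.2, fun a b => ?_⟩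
  have := congrFun (congrFun hm.2 a) b
  exact congrArg Fin.val this

theorem TF4_congr {V W : Type} (rel : V → V → ℕ) (rel' : W → W → ℕ) (y : Fin 4 → V)
    (z : Fin 4 → W) (h : ∀ a b, rel (y a) (y b) = rel' (z a) (z b)) (ht : TF4 rel' z) :
    TF4 rel y := by
  intro a b c hab hbc
  have := ht a b c hab hbc
  unfold c3 at this ⊢
  rw [h a b, h a c, h b c]
  exact this

theorem exists_bad3 {V : Type} (rel : V → V → ℕ) (hG : Good4 rel) (k : ℕ) (hk : 3 ≤ k)
    (f : Fin k → V) (hinj : Function.Injective f)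
    (hf : ∃ y : Fin 4 → Fin k, TF4 (rT fun i j => rel (f i) (f j)) y) :
    ∃ h : Fin 3 → Fin k, Function.Injective h ∧ (Function.Injective (f ∘ h) ∧
      Bad3 rel (f ∘ h)) := by
  classical
  obtain ⟨y, hy⟩ := hf
  have hni : ¬ Function.Injective y := by
    intro h
    refine hG.h4 (fun a => f (y a)) (hinj.comp h) ?_
    intro a b c hab hbc
    have := hy a b c hab hbc
    unfold c3 at this ⊢
    rw [rT_ne _ (fun h' => hab.ne (h h')), rT_ne _ (fun h' => (hab.trans hbc).ne (h h')),
      rT_ne _ (fun h' => hbc.ne (h h'))] at this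
    exact this
  unfold Function.Injective at hni
  push Not at hni
  obtain ⟨p, q, hpq, hne⟩ := hni
  have hc : ((univ.erase q).image y).card ≤ 3 := by
    refine card_image_le.trans ?_
    rw [card_erase_of_mem (mem_univ _), card_univ, Fintype.card_fin]
  obtain ⟨J, hJ, -, hJc⟩ := exists_subsuperset_card_eq (subset_univ _) hc
    (by rw [card_univ, Fintype.card_fin]; exact hk)
  have hs : ∀ a : Fin 4, ∃ s : Fin 3, J.orderEmbOfFin hJc s = y a := by
    have h1 : ∀ a : Fin 4, a ≠ q → ∃ s : Fin 3, J.orderEmbOfFin hJc s = y a := by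
      intro a ha
      have : y a ∈ J := hJ (mem_image.2 ⟨a, mem_erase.2 ⟨ha, mem_univ _⟩, rfl⟩)
      have hr : y a ∈ Set.range (J.orderEmbOfFin hJc) := by
        rw [range_orderEmbOfFin]
        exact this
      exact hr
    intro a
    by_cases ha : a = q
    · obtain ⟨s, hs⟩ := h1 p hne
      exact ⟨s, by rw [hs, ha]; exact hpq⟩
    · exact h1 a ha
  choose s hs using hs
  have hinj2 : Function.Injective (J.orderEmbOfFin hJc) := (J.orderEmbOfFin hJc).injective
  refine ⟨J.orderEmbOfFin hJc, hinj2, hinj.comp hinj2, s, ?_⟩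
  refine TF4_congr _ _ _ _ (fun a b => ?_) hy
  by_cases hab : s a = s b
  · have hyab : y a = y b := by rw [← hs a, ← hs b, hab]
    rw [hab, hyab, rT_self, rT_self]
  · have hyab : y a ≠ y b := by
      rw [← hs a, ← hs b]
      exact fun h => hab (hinj2 h)
    rw [rT_ne _ hab, rT_ne _ hyab]
    show rel (f (J.orderEmbOfFin hJc (s a))) (f (J.orderEmbOfFin hJc (s b))) = _
    rw [hs, hs]

end Pool.Agent.H63.MK
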