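import Pool.Agent.H63.MK.Core
import Pool.Agent.H63.MG.Bridge
import Pool.Agent.H63.MGS.Defs4

/-! Mixed graphs without four vertices spanning a complete 3-graph. -/

set_option autoImplicit false

open Finset Pool.Agent.H63.MGS

namespace Pool.Agent.H63.MK

open Pool.Agent.H63.MG (Pr cd c3 tc code tc_code code_pr code_self)
open Pool.Agent.H63.MT (rT rT_self rT_ne)

theorem three_sorted4 : ∀ e : Finset (Fin 4), e.card = 3 →
    ∃ a b c : Fin 4, a < b ∧ b < c ∧ e = {a, b, c} := by
  decide

theorem free4 {V : Type} [Fintype V] (G : MixedGraph V) (h : K43Free G.threeGraph)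
    (y : Fin 4 → V) (hy : Function.Injective y) : ¬ TF4 (code G) y := by
  classical
  intro hT
  refine h (univ.image y) ?_ ?_
  · rw [Finset.card_image_of_injective _ hy, Finset.card_univ, Fintype.card_fin]
  · intro e he
    rw [Finset.mem_powersetCard] at he
    obtain ⟨h1, h2⟩ := he
    set e' : Finset (Fin 4) := univ.filter fun i => y i ∈ e with he'
    have h3 : e'.image y = e := by
      ext v
      rw [Finset.mem_image]
      constructor
      · rintro ⟨i, hi, rfl⟩
        exact (Finset.mem_filter.1 hi).2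
      · intro hv
        obtain ⟨i, _, hi⟩ := Finset.mem_image.1 (h1 hv)
        exact ⟨i, Finset.mem_filter.2 ⟨Finset.mem_univ _, by rw [hi]; exact hv⟩, hi⟩
    have h4 : e'.card = 3 := by
      rw [← h2, ← h3, Finset.card_image_of_injective _ hy]
    obtain ⟨a, b, c, hab, hbc, hee⟩ := three_sorted4 e' h4
    have h5 : e = {y a, y b, y c} := by
      rw [← h3, hee, Finset.image_insert, Finset.image_insert, Finset.image_singleton]
    unfold MixedGraph.threeGraph
    rw [Finset.mem_filter, Finset.mem_powersetCard]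
    refine ⟨⟨Finset.subset_univ _, h2⟩, ?_⟩
    rw [h5]
    have nab : y a ≠ y b := fun h => (ne_of_lt hab) (hy h)
    have nbc : y b ≠ y c := fun h => (ne_of_lt hbc) (hy h)
    have nac : y a ≠ y c := fun h => (ne_of_lt (hab.trans hbc)) (hy h)
    exact (tc_code G _ _ _ nab nac nbc).1 (hT a b c hab hbc)

/-- a relation whose transitive blow-ups are good has no unrelated pairs -/
theorem no_three {k : ℕ} (rel : Fin k → Fin k → ℕ) (hrel : ∀ x y, Pr (rel x y) (rel y x))
    (h : ∀ y : Fin 4 → Fin k, ¬ TF4 (rT rel) y) (x y : Fin k) (hxy : x ≠ y) : rel x y ≠ 3 := by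
  intro h3
  have h3' : rel y x = 3 := by
    rcases hrel x y with h' | h' | h' | h' <;> omega
  refine h ![x, x, y, y] ?_
  intro a b c hab hbc
  have exx : rT rel x x = 1 := rT_self _ _
  have eyy : rT rel y y = 1 := rT_self _ _
  have exy : rT rel x y = 3 := by rw [rT_ne _ hxy, h3]
  fin_cases a <;> fin_cases b <;> first | exact absurd hab (by decide) | skip
  all_goals fin_cases c <;> first | exact absurd hbc (by decide) | skip
  · show tc (cd (rT rel x x) (rT rel x y) (rT rel x y)) = 0
    rw [exx, exy]; decide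
  · show tc (cd (rT rel x x) (rT rel x y) (rT rel x y)) = 0
    rw [exx, exy]; decide
  · show tc (cd (rT rel x y) (rT rel x y) (rT rel y y)) = 0
    rw [eyy, exy]; decide
  · show tc (cd (rT rel x y) (rT rel x y) (rT rel y y)) = 0
    rw [eyy, exy]; decide

/-- such a relation has no induced directed four-cycle -/
theorem no_cycle {k : ℕ} (rel : Fin k → Fin k → ℕ) (hrel : ∀ x y, Pr (rel x y) (rel y x))
    (hz : ∀ x, rel x x = 0)
    (h : ∀ y : Fin 4 → Fin k, ¬ TF4 (rT rel) y) : ¬ ∃ a b c d : Fin k, rel a b = 1 ∧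
      rel b c = 1 ∧ rel c d = 1 ∧ rel d a = 1 ∧ rel a c = 0 ∧ rel b d = 0 := by
  rintro ⟨x, y, z, w, h1, h2, h3, h4, h5, h6⟩
  have nxy : x ≠ y := by rintro rfl; rw [hz] at h1; exact absurd h1 (by norm_num)
  have nyz : y ≠ z := by rintro rfl; rw [hz] at h2; exact absurd h2 (by norm_num)
  have nzw : z ≠ w := by rintro rfl; rw [hz] at h3; exact absurd h3 (by norm_num)
  have nwx : w ≠ x := by rintro rfl; rw [hz] at h4; exact absurd h4 (by norm_num)
  have nxz : x ≠ z := by
    rintro rfl
    rcases hrel x y with h' | h' | h' | h' <;> omega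
  have nyw : y ≠ w := by
    rintro rfl
    rcases hrel y z with h' | h' | h' | h' <;> omega
  have h4' : rel x w = 2 := by
    rcases hrel w x with h' | h' | h' | h' <;> omega
  refine h ![x, y, z, w] ?_
  intro a b c hab hbc
  have e1 : rT rel x y = 1 := by rw [rT_ne _ nxy, h1]
  have e2 : rT rel y z = 1 := by rw [rT_ne _ nyz, h2]
  have e3 : rT rel z w = 1 := by rw [rT_ne _ nzw, h3]
  have e4 : rT rel x w = 2 := by rw [rT_ne _ nwx.symm, h4']
  have e5 : rT rel x z = 0 := by rw [rT_ne _ nxz, h5]
  have e6 : rT rel y w = 0 := by rw [rT_ne _ nyw, h6]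
  fin_cases a <;> fin_cases b <;> first | exact absurd hab (by decide) | skip
  all_goals fin_cases c <;> first | exact absurd hbc (by decide) | skip
  · show tc (cd (rT rel x y) (rT rel x z) (rT rel y z)) = 0
    rw [e1, e5, e2]; decide
  · show tc (cd (rT rel x y) (rT rel x w) (rT rel y w)) = 0
    rw [e1, e4, e6]; decide
  · show tc (cd (rT rel x z) (rT rel x w) (rT rel z w)) = 0
    rw [e5, e4, e3]; decide
  · show tc (cd (rT rel y z) (rT rel y w) (rT rel z w)) = 0
    rw [e2, e6, e3]; decide

end Pool.Agent.H63.MK
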